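import Pool.Agent.Helper50.GP.St

set_option autoImplicit false

/-!
Project GP, module CPI: the centre of a finite commuting product of groups whose centres have finite
index has finite index.
-/

namespace Pool.Agent.Helper34.GP

open Pool.Agent.Helper50.GP

private theorem index_center_pi (ι : Type) [Finite ι] (H : ι → Type) [∀ i, Group (H i)]
    (h : ∀ i, (Subgroup.center (H i)).index ≠ 0) :
    (Subgroup.center (∀ i, H i)).index ≠ 0 := by
  have hfin : ∀ i, Finite (H i ⧸ Subgroup.center (H i)) := fun i =>
    Nat.finite_of_card_ne_zero (h i)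
  have hfin2 : Finite (∀ i, H i ⧸ Subgroup.center (H i)) := Pi.finite
  obtain ⟨f, hf⟩ : ∃ f : (∀ i, H i) →* (∀ i, H i ⧸ Subgroup.center (H i)),
      ∀ x i, f x i = QuotientGroup.mk' (Subgroup.center (H i)) (x i) :=
    ⟨Pi.monoidHom fun i => (QuotientGroup.mk' (Subgroup.center (H i))).comp
      (Pi.evalMonoidHom _ i), fun x i => rfl⟩
  have hker : f.ker ≤ Subgroup.center (∀ i, H i) := by
    intro x hx
    rw [Subgroup.mem_center_iff]
    intro y
    funext i
    have h1 : f x i = 1 := by
      rw [(MonoidHom.mem_ker).1 hx]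
      rfl
    rw [hf] at h1
    have h2 : x i ∈ Subgroup.center (H i) := (QuotientGroup.eq_one_iff (x i)).1 h1
    exact (Subgroup.mem_center_iff.1 h2) (y i)
  have hidx : f.ker.index ≠ 0 := by
    rw [Subgroup.index_ker]
    exact Nat.card_pos.ne'
  intro h0
  apply hidx
  have h3 := Subgroup.index_dvd_of_le hker
  rw [h0, zero_dvd_iff] at h3
  exact h3

theorem hCPI : StCPI := by
  intro G ι _ _ K hK hcomm
  cases nonempty_fintype ι
  have hc : Pairwise fun i j => ∀ x y : G, x ∈ K i → y ∈ K j → Commute x y :=
    fun i j hij x y hx hy => hcomm i j hij x hx y hy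
  have hr := Subgroup.noncommPiCoprod_range (hcomm := hc)
  have h1 := index_center_pi ι (fun i => K i) hK
  rw [← hr]
  have hs : Function.Surjective (Subgroup.noncommPiCoprod hc).rangeRestrict :=
    MonoidHom.rangeRestrict_surjective _
  have h2 := Subgroup.index_map_dvd (Subgroup.center (∀ i, K i)) hs
  have h3 : (Subgroup.center (∀ i, K i)).map (Subgroup.noncommPiCoprod hc).rangeRestrict ≤
      Subgroup.center (Subgroup.noncommPiCoprod hc).range := by
    intro b hb
    obtain ⟨z, hz, rfl⟩ := Subgroup.mem_map.1 hb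
    rw [Subgroup.mem_center_iff]
    intro y
    obtain ⟨t, rfl⟩ := hs y
    rw [← map_mul, ← map_mul, (Subgroup.mem_center_iff.1 hz) t]
  intro h0
  have h4 := Subgroup.index_dvd_of_le h3
  rw [h0, zero_dvd_iff] at h4
  rw [h4, zero_dvd_iff] at h2
  exact h1 h2

end Pool.Agent.Helper34.GP
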